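import Mathlib

/-!
# Project TQ, piece A1: divisibility by three on `y² = x³ - 1`
-/

set_option autoImplicit false

namespace Pool.Agent.W2helper54.TQ

open WeierstrassCurve
open scoped Classical

/-- the curve -/
def E0 (R : Type) [CommRing R] : WeierstrassCurve R := ⟨0, 0, 0, 0, -1⟩

section
variable {F : Type} [Field F] [CharZero F]

theorem ns {x y : F} (h : y ^ 2 = x ^ 3 - 1) : (E0 F).toAffine.Nonsingular x y := by
  rw [Affine.nonsingular_iff, Affine.equation_iff]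
  simp only [E0]
  refine ⟨by linear_combination h, ?_⟩
  by_contra hno
  push Not at hno
  have hx : x = 0 := by
    have := hno.1
    have h2 : (3 : F) * x ^ 2 = 0 := by linear_combination -this
    have h3 : x ^ 2 = 0 := by
      rcases mul_eq_zero.1 h2 with h | h
      · norm_num at h
      · exact h
    exact pow_eq_zero_iff (two_ne_zero) |>.1 h3
  have hy : y = 0 := by
    have := hno.2
    have h2 : (2 : F) * y = 0 := by linear_combination this
    rcases mul_eq_zero.1 h2 with h | h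
    · norm_num at h
    · exact h
  rw [hx, hy] at h
  norm_num at h

/-- the point `(x, y)` -/
noncomputable def pt (x y : F) (h : y ^ 2 = x ^ 3 - 1) : (E0 F).toAffine.Point := .some x y (ns h)

theorem pt_congr {x y x' y' : F} (h : y ^ 2 = x ^ 3 - 1) (h' : y' ^ 2 = x' ^ 3 - 1)
    (hx : x = x') (hy : y = y') : pt x y h = pt x' y' h' := by
  subst hx; subst hy; rfl

theorem neg_pt {x y y' : F} (h : y ^ 2 = x ^ 3 - 1) (h' : y' ^ 2 = x ^ 3 - 1) (hy : y' = -y) :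
    -pt x y h = pt x y' h' := by
  subst hy
  unfold pt
  rw [Affine.Point.neg_some]
  simp only [Affine.Point.some.injEq, true_and]
  simp [Affine.negY, E0]

theorem add_pt {x1 y1 x2 y2 x3 y3 s : F} (h1 : y1 ^ 2 = x1 ^ 3 - 1) (h2 : y2 ^ 2 = x2 ^ 3 - 1)
    (h3 : y3 ^ 2 = x3 ^ 3 - 1) (hx : x1 ≠ x2) (hs : s * (x1 - x2) = y1 - y2)
    (hx3 : x3 = s ^ 2 - x1 - x2) (hy3 : y3 = -(s * (x3 - x1) + y1)) :
    pt x1 y1 h1 + pt x2 y2 h2 = pt x3 y3 h3 := by
  unfold pt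
  rw [Affine.Point.add_of_X_ne hx]
  have hsl : (E0 F).toAffine.slope x1 x2 y1 y2 = s := by
    rw [Affine.slope_of_X_ne hx, ← hs, mul_div_cancel_right₀ _ (sub_ne_zero.2 hx)]
  have hX : (E0 F).toAffine.addX x1 x2 ((E0 F).toAffine.slope x1 x2 y1 y2) = x3 := by
    rw [hsl, hx3]; simp [Affine.addX, E0]
  simp only [Affine.Point.some.injEq]
  refine ⟨hX, ?_⟩
  rw [Affine.addY, Affine.negAddY, hX, hsl, hy3]
  simp [Affine.negY, E0]

/-- `(ζωu, v) + (ζω²u, -v) = (ζX, Y)` for `θ = ω - ω²` -/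
theorem lam_add {ζ ω θ u v X Y s : F} (hζ : ζ ^ 3 = 1) (hω : 1 + ω + ω ^ 2 = 0) (hθ : θ = ω - ω ^ 2)
    (hu : u ≠ 0) (hs : s * (θ * u) = 2 * v) (hX : X = s ^ 2 + u)
    (hY : Y = -(s * (X - ω * u) + v))
    (h1 : v ^ 2 = (ζ * ω * u) ^ 3 - 1) (h2 : (-v) ^ 2 = (ζ * ω ^ 2 * u) ^ 3 - 1)
    (h3 : Y ^ 2 = (ζ * X) ^ 3 - 1) :
    pt (ζ * ω * u) v h1 + pt (ζ * ω ^ 2 * u) (-v) h2 = pt (ζ * X) Y h3 := by
  have hω3 : ω ^ 3 = 1 := by linear_combination (ω - 1) * hω
  have hζ0 : ζ ≠ 0 := by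
    intro h0; rw [h0] at hζ; norm_num at hζ
  have hθ0 : θ ≠ 0 := by
    intro h0
    have h2 : θ ^ 2 = -3 := by rw [hθ]; linear_combination (ω ^ 2 - 3 * ω + 3) * hω  + (0 : F) * hω3
    rw [h0] at h2; norm_num at h2
  apply add_pt (s := ζ ^ 2 * s)
  · intro he
    have : ζ * (θ * u) = 0 := by rw [hθ]; linear_combination he
    exact (mul_ne_zero hζ0 (mul_ne_zero hθ0 hu)) this
  · have : ζ ^ 2 * s * (ζ * ω * u - ζ * ω ^ 2 * u) = ζ ^ 3 * (s * (θ * u)) := by rw [hθ]; ring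
    rw [this, hs, hζ]; ring
  · rw [hX]
    have e1 : (ζ ^ 2 * s) ^ 2 = ζ ^ 3 * ζ * s ^ 2 := by ring
    rw [e1, hζ]
    linear_combination (ζ * u) * hω
  · rw [hY]
    have e1 : ζ ^ 2 * s * (ζ * X - ζ * ω * u) = ζ ^ 3 * (s * (X - ω * u)) := by ring
    rw [e1, hζ]; ring


/-- data for a point `(X, Y)` in the image of `[√-3]`: the preimage `(u, v)` -/
theorem pre {θ T S p y1 : F} (hθ : θ ^ 2 = -3) (r1 : S ^ 2 = T + p) (r2 : (T - 3 * p) * T ^ 2 = -4)
    (r3 : S * (T - 2 * p) = 2 * y1) :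
    ∃ u v s : F, u ≠ 0 ∧ v ^ 2 = u ^ 3 - 1 ∧ s * (θ * u) = 2 * v ∧ p = s ^ 2 + u ∧
      y1 = -(s * (p - (-1 + θ) / 2 * u) + v) := by
  have hT : T ≠ 0 := by
    intro h; rw [h] at r2; norm_num at r2
  refine ⟨-T, -θ * T * S / 2, S, neg_ne_zero.2 hT, ?_, ?_, ?_, ?_⟩
  · have : (-θ * T * S / 2) ^ 2 = θ ^ 2 * T ^ 2 * S ^ 2 / 4 := by ring
    rw [this, hθ, r1]
    linear_combination (1 / 4) * r2
  · ring
  · linear_combination -r1
  · linear_combination (-1 / 2) * r3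

/-- the descent argument: the numbers `T`, `S` -/
theorem exists_TS {F' : Type} [Field F'] [Algebra F F'] (σ : F' ≃ₐ[F] F') (i : F') (θ : F)
    (hi : i ^ 2 = -1) (hσ : σ i = -i) (hfix : ∀ z, σ z = z → ∃ f : F, algebraMap F F' f = z)
    (hθ : θ ^ 2 = -3) {x y : F} (h : y ^ 2 = x ^ 3 - 1) (w : F') (hw : w ^ 3 = algebraMap F F' y - i) :
    ∃ T S : F, S ^ 2 = T + x ∧ (T - 3 * x) * T ^ 2 = -4 ∧ S * (T - 2 * x) = 2 * y := by
  have hcz : CharZero F' := charZero_of_injective_algebraMap (algebraMap F F').injective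
  have hinj : Function.Injective (algebraMap F F') := (algebraMap F F').injective
  have hi0 : i ≠ 0 := by
    intro h0; rw [h0] at hi; norm_num at hi
  -- sigma is an involution on i
  have hw' : (σ w) ^ 3 = algebraMap F F' y + i := by
    have := congrArg σ hw
    rw [map_pow, map_sub, AlgEquiv.commutes, hσ, sub_neg_eq_add] at this
    exact this
  have hF : (algebraMap F F' y) ^ 2 = (algebraMap F F' x) ^ 3 - 1 := by
    rw [← map_pow, h, map_sub, map_pow, map_one]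
  have hprod : (w * σ w) ^ 3 = (algebraMap F F' x) ^ 3 := by
    rw [mul_pow, hw, hw']
    linear_combination hF - hi
  have hx0 : x ≠ 0 := by
    intro h0
    rw [h0, map_zero] at hF
    have h2 : (algebraMap F F' y - i) * (algebraMap F F' y + i) = 0 := by
      linear_combination hF - hi
    rcases mul_eq_zero.1 h2 with h3 | h3
    · have h4 : algebraMap F F' y = i := sub_eq_zero.1 h3
      have h5 := congrArg σ h4
      rw [AlgEquiv.commutes, hσ, h4] at h5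
      have : (2 : F') * i = 0 := by linear_combination h5
      rcases mul_eq_zero.1 this with h | h
      · norm_num at h
      · exact hi0 h
    · have h4 : algebraMap F F' y = -i := by linear_combination h3
      have h5 := congrArg σ h4
      rw [AlgEquiv.commutes, map_neg, hσ, h4] at h5
      have : (2 : F') * i = 0 := by linear_combination -h5
      rcases mul_eq_zero.1 this with h | h
      · norm_num at h
      · exact hi0 h
  have hx0' : algebraMap F F' x ≠ 0 := fun h0 => hx0 (hinj (by rw [h0, map_zero]))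
  have hws : w * σ w ≠ 0 := by
    intro h0
    rw [h0] at hprod
    exact (pow_ne_zero 3 hx0') (by rw [← hprod]; ring)
  -- the cube roots of unity of F' are fixed by sigma
  have hroot : ∀ ζ : F', ζ ^ 3 = 1 → σ ζ = ζ := by
    intro ζ hζ
    have hθ' : (algebraMap F F' θ) ^ 2 = -3 := by
      rw [← map_pow, hθ, map_neg, map_ofNat]
    have hfac : (ζ - 1) * ((2 * ζ + 1 - algebraMap F F' θ) * (2 * ζ + 1 + algebraMap F F' θ)) = 0 := by
      linear_combination 4 * hζ - (ζ - 1) * hθ'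
    rcases mul_eq_zero.1 hfac with h1 | h1
    · rw [sub_eq_zero.1 h1, map_one]
    · have key : ∀ t : F', σ t = t → 2 * ζ = t → σ ζ = ζ := by
        intro t ht h2
        have h3 := congrArg σ h2
        rw [map_mul, ht, ← h2, map_ofNat] at h3
        exact mul_left_cancel₀ (two_ne_zero) h3
      rcases mul_eq_zero.1 h1 with h2 | h2
      · apply key (algebraMap F F' θ - 1)
        · rw [map_sub, AlgEquiv.commutes, map_one]
        · linear_combination h2
      · apply key (-algebraMap F F' θ - 1)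
        · rw [map_sub, map_neg, AlgEquiv.commutes, map_one]
        · linear_combination h2
  -- normalise w
  obtain ⟨a, ha3, hab⟩ : ∃ a : F', a ^ 3 = algebraMap F F' y - i ∧ a * σ a = algebraMap F F' x := by
    set ζ : F' := algebraMap F F' x / (w * σ w) with hζd
    have hζ : ζ ^ 3 = 1 := by
      rw [hζd, div_pow, ← hprod, div_self (pow_ne_zero 3 hws)]
    have hζx : ζ * (w * σ w) = algebraMap F F' x := div_mul_cancel₀ _ hws
    refine ⟨ζ ^ 2 * w, ?_, ?_⟩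
    · rw [mul_pow, hw]
      have : (ζ ^ 2) ^ 3 = (ζ ^ 3) ^ 2 := by ring
      rw [this, hζ]; ring
    · rw [map_mul, map_pow, hroot ζ hζ]
      have : ζ ^ 2 * w * (ζ ^ 2 * σ w) = ζ ^ 3 * (ζ * (w * σ w)) := by ring
      rw [this, hζ, hζx, one_mul]
  have hb3 : (σ a) ^ 3 = algebraMap F F' y + i := by
    have := congrArg σ ha3
    rw [map_pow, map_sub, AlgEquiv.commutes, hσ, sub_neg_eq_add] at this
    exact this
  have hσσ : σ (σ a) * σ a = algebraMap F F' x := by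
    have := congrArg σ hab
    rw [map_mul, AlgEquiv.commutes] at this
    linear_combination this
  have ha0 : a ≠ 0 := by
    intro h0; rw [h0, zero_mul] at hab; exact hx0' hab.symm
  have hb0 : σ a ≠ 0 := by
    intro h0; rw [h0, mul_zero] at hab; exact hx0' hab.symm
  have hσσa : σ (σ a) = a := by
    apply mul_right_cancel₀ hb0
    rw [hσσ, hab]
  obtain ⟨S, hS⟩ := hfix (a + σ a) (by rw [map_add, hσσa, add_comm])
  obtain ⟨T, hT⟩ := hfix (a ^ 2 + a * σ a + (σ a) ^ 2) (by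
    rw [map_add, map_add, map_mul, map_pow, map_pow, hσσa]; ring)
  refine ⟨T, S, hinj ?_, hinj ?_, hinj ?_⟩
  · simp only [map_pow, map_add, hS, hT]
    rw [← hab]; ring
  · simp only [map_pow, map_mul, map_sub, map_neg, map_ofNat, hT]
    rw [← hab]
    have e1 : (a - σ a) * (a ^ 2 + a * σ a + (σ a) ^ 2) = -2 * i := by
      linear_combination ha3 - hb3
    have e2 : (a ^ 2 + a * σ a + (σ a) ^ 2 - 3 * (a * σ a)) * (a ^ 2 + a * σ a + (σ a) ^ 2) ^ 2 =
        ((a - σ a) * (a ^ 2 + a * σ a + (σ a) ^ 2)) ^ 2 := by ring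
    rw [e2, e1]
    linear_combination 4 * hi
  · simp only [map_mul, map_sub, map_ofNat, hS, hT]
    rw [← hab]
    linear_combination ha3 + hb3

/-- the main theorem -/
theorem divisible {F' : Type} [Field F'] [Algebra F F'] (σ : F' ≃ₐ[F] F') (i : F') (θ : F)
    (hi : i ^ 2 = -1) (hσ : σ i = -i) (hfix : ∀ z, σ z = z → ∃ f : F, algebraMap F F' f = z)
    (hθ : θ ^ 2 = -3)
    (hcube : ∀ x y : F, y ^ 2 = x ^ 3 - 1 → ∃ w : F', w ^ 3 = algebraMap F F' y - i)
    (P : (E0 F).toAffine.Point) : ∃ Q : (E0 F).toAffine.Point, P = 3 • Q := by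
  set ω : F := (-1 + θ) / 2 with hωd
  have hω : 1 + ω + ω ^ 2 = 0 := by rw [hωd]; linear_combination (1 / 4) * hθ
  have hω3 : ω ^ 3 = 1 := by linear_combination (ω - 1) * hω
  have hθω : θ = ω - ω ^ 2 := by rw [hωd]; linear_combination (1 / 4) * hθ
  rcases P with _ | ⟨x, y, hns⟩
  · exact ⟨0, by rw [smul_zero]; rfl⟩
  have h : y ^ 2 = x ^ 3 - 1 := by
    have := ((Affine.nonsingular_iff _ _).1 hns).1
    rw [Affine.equation_iff] at this
    simp only [E0] at this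
    linear_combination this
  obtain ⟨w, hw⟩ := hcube x y h
  obtain ⟨T, S, r1, r2, r3⟩ := exists_TS σ i θ hi hσ hfix hθ h w hw
  obtain ⟨u, v, s, hu, huv, hs, hX, hY⟩ := pre hθ r1 r2 r3
  obtain ⟨w', hw'⟩ := hcube u v huv
  obtain ⟨T', S', r1', r2', r3'⟩ := exists_TS σ i θ hi hσ hfix hθ huv w' hw'
  obtain ⟨u', v', s', hu', huv', hs', hX', hY'⟩ := pre hθ r1' r2' r3'
  have on : ∀ (ζ x y : F), ζ ^ 3 = 1 → y ^ 2 = x ^ 3 - 1 → y ^ 2 = (ζ * x) ^ 3 - 1 := by
    intro ζ x y hζ h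
    rw [mul_pow, hζ, one_mul]; exact h
  have onn : ∀ (ζ x y : F), ζ ^ 3 = 1 → y ^ 2 = x ^ 3 - 1 → (-y) ^ 2 = (ζ * x) ^ 3 - 1 := by
    intro ζ x y hζ h
    rw [mul_pow, hζ, one_mul, neg_sq]; exact h
  have w2 : (ω ^ 2) ^ 3 = 1 := by
    have : (ω ^ 2) ^ 3 = (ω ^ 3) ^ 2 := by ring
    rw [this, hω3]; ring
  -- all the points
  let C := {ζ : F // ζ ^ 3 = 1}
  let A : C → (E0 F).toAffine.Point := fun ζ => pt (ζ.1 * u') v' (on ζ.1 u' v' ζ.2 huv')
  let B : C → (E0 F).toAffine.Point := fun ζ => pt (ζ.1 * u) v (on ζ.1 u v ζ.2 huv)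
  have hAneg : ∀ ζ : C, -A ζ = pt (ζ.1 * u') (-v') (onn ζ.1 u' v' ζ.2 huv') :=
    fun ζ => neg_pt _ _ rfl
  have hBneg : ∀ ζ : C, -B ζ = pt (ζ.1 * u) (-v) (onn ζ.1 u v ζ.2 huv) :=
    fun ζ => neg_pt _ _ rfl
  have m1 : ∀ ζ : F, ζ ^ 3 = 1 → (ζ * ω) ^ 3 = 1 := fun ζ h => by rw [mul_pow, h, hω3, one_mul]
  have m2 : ∀ ζ : F, ζ ^ 3 = 1 → (ζ * ω ^ 2) ^ 3 = 1 := fun ζ h => by rw [mul_pow, h, w2, one_mul]
  let c0 : C := ⟨1, one_pow 3⟩
  let c1 : C := ⟨ω, hω3⟩
  let c2 : C := ⟨ω ^ 2, w2⟩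
  -- `P = B ω - B ω²`
  have hP : (Affine.Point.some x y hns : (E0 F).toAffine.Point) = B c1 + -B c2 := by
    rw [hBneg]
    have key := lam_add (F := F) (one_pow 3) hω hθω hu hs hX hY
      (on (1 * ω) u v (m1 1 (one_pow 3)) huv) (onn (1 * ω ^ 2) u v (m2 1 (one_pow 3)) huv)
      (on 1 x y (one_pow 3) h)
    have e1 : B c1 = pt (1 * ω * u) v (on (1 * ω) u v (m1 1 (one_pow 3)) huv) :=
      pt_congr _ _ (by simp [c1]) rfl
    have e2 : pt (c2.1 * u) (-v) (onn c2.1 u v c2.2 huv) =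
        pt (1 * ω ^ 2 * u) (-v) (onn (1 * ω ^ 2) u v (m2 1 (one_pow 3)) huv) :=
      pt_congr _ _ (by simp [c2]) rfl
    rw [e1, e2, key]
    unfold pt
    simp
  -- `B ζ = A (ζ ω) - A (ζ ω²)`
  have hB : ∀ ζ : C, B ζ = A ⟨ζ.1 * ω, m1 ζ.1 ζ.2⟩ + -A ⟨ζ.1 * ω ^ 2, m2 ζ.1 ζ.2⟩ := by
    intro ζ
    rw [hAneg]
    exact (lam_add ζ.2 hω hθω hu' hs' hX' hY' _ _ (on ζ.1 u v ζ.2 huv)).symm
  -- `A 1 + A ω = - A ω²`
  have hsum : A c0 + A c1 = -A c2 := by
    rw [hAneg]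
    apply add_pt (s := 0)
    · intro he
      have h1 : (1 - ω) * u' = 0 := by linear_combination he
      rcases mul_eq_zero.1 h1 with h2 | h2
      · have h3 : ω = 1 := by linear_combination -h2
        rw [h3] at hω; norm_num at hω
      · exact hu' h2
    · ring
    · show ω ^ 2 * u' = 0 ^ 2 - 1 * u' - ω * u'
      linear_combination u' * hω
    · ring
  refine ⟨-A c0, ?_⟩
  rw [hP, hB, hB]
  have s1 : (⟨c1.1 * ω, m1 c1.1 c1.2⟩ : C) = c2 := Subtype.ext (by simp [c1, c2]; ring)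
  have s2 : (⟨c1.1 * ω ^ 2, m2 c1.1 c1.2⟩ : C) = c0 :=
    Subtype.ext (by show ω * ω ^ 2 = 1; linear_combination hω3)
  have s3 : (⟨c2.1 * ω, m1 c2.1 c2.2⟩ : C) = c0 :=
    Subtype.ext (by show ω ^ 2 * ω = 1; linear_combination hω3)
  have s4 : (⟨c2.1 * ω ^ 2, m2 c2.1 c2.2⟩ : C) = c1 :=
    Subtype.ext (by show ω ^ 2 * ω ^ 2 = ω; linear_combination ω * hω3)
  rw [s1, s2, s3, s4]
  have h5 : A c2 = -(A c0 + A c1) := by rw [hsum, neg_neg]
  rw [h5]
  abel

end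

end Pool.Agent.W2helper54.TQ
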