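import Pool.Agent.W2helper24.TQ.Stm
import Pool.Agent.W2helper54.TQ.A1a

/-!
# Project TQ, piece A1
-/

set_option autoImplicit false

namespace Pool.Agent.W2helper54.TQ.A1

open Pool.Agent.W2helper24.TQ

theorem piece : P_A1 := by
  intro F F' _ _ _ _ σ i θ hi hσ hfix hθ hcube P
  exact Pool.Agent.W2helper54.TQ.divisible σ i θ hi hσ hfix hθ hcube P

end Pool.Agent.W2helper54.TQ.A1
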